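import Pool.Agent.H13.RL.Defs

/-!
# Linear systems (MP_b509a1_ag, Theorem L): module NUM

The choice of the number `m1` of grid points per side and of the accuracy `10^{-K}` (after
`Pool.Agent.H48.RK.NumP`).
-/

set_option autoImplicit false

namespace Pool.Agent.H13.RL

theorem numL : NumL := by
  refine ⟨10000000000, 1 / 5000000000000, by norm_num, by norm_num, ?_⟩
  intro n d R hn hR hd hRd
  -- the real numbers m, d, y
  set m : ℝ := (n : ℝ) + 2 with hm
  have hn1 : (1 : ℝ) ≤ n := by exact_mod_cast hn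
  have hm3 : (3 : ℝ) ≤ m := by rw [hm]; linarith
  have hmpos : (0 : ℝ) < m := by linarith
  have hlog3 : (1 : ℝ) ≤ Real.log m := by
    rw [Real.le_log_iff_exp_le hmpos]
    have := Real.exp_one_lt_d9
    linarith
  have hl2l := Real.log_two_gt_d9
  have hl2u := Real.log_two_lt_d9
  set D : ℝ := (d : ℝ) with hD
  have hDm : 10000000000 * m ≤ D := by
    have h1 : 10000000000 * m * 1 ≤ 10000000000 * m * Real.log m :=
      mul_le_mul_of_nonneg_left hlog3 (by positivity)
    linarith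
  have hDpos : (0 : ℝ) < D := by linarith
  have hD9 : (3000000000 : ℝ) ≤ D := by linarith
  have hDD : (6 : ℝ) ≤ D * D / 1000000000 := by
    rw [le_div_iff₀ (by norm_num)]
    calc (6 : ℝ) * 1000000000 ≤ 3000000000 * 3000000000 := by norm_num
      _ ≤ D * D := mul_le_mul hD9 hD9 (by norm_num) hDpos.le
  set y : ℝ := D / m with hy
  have hyD : y * m = D := by rw [hy]; field_simp
  have hy9 : (10000000000 : ℝ) ≤ y := by
    rw [hy, le_div_iff₀ hmpos]; exact hDm
  have hypos : (0 : ℝ) < y := by linarith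
  have hlogm : Real.log m ≤ y / 10000000000 := by
    rw [hy, div_div, le_div_iff₀ (by positivity)]
    calc Real.log m * (m * 10000000000) = 10000000000 * m * Real.log m := by ring
      _ ≤ D := hd
  -- m1
  set m1 : ℕ := ⌊Real.sqrt D / 459⌋₊ + 1 with hm1
  have hs0 : 0 ≤ Real.sqrt D := Real.sqrt_nonneg _
  have hfl : ((⌊Real.sqrt D / 459⌋₊ : ℕ) : ℝ) ≤ Real.sqrt D / 459 := Nat.floor_le (by positivity)
  have hfu : Real.sqrt D / 459 < (⌊Real.sqrt D / 459⌋₊ : ℝ) + 1 := Nat.lt_floor_add_one _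
  have hm1c : (m1 : ℝ) = (⌊Real.sqrt D / 459⌋₊ : ℝ) + 1 := by rw [hm1]; push_cast; ring
  have hm1sq : D / 210681 ≤ (m1 : ℝ) ^ 2 := by
    have h1 : Real.sqrt D / 459 ≤ (m1 : ℝ) := by rw [hm1c]; exact hfu.le
    have h2 : (Real.sqrt D / 459) ^ 2 ≤ (m1 : ℝ) ^ 2 := pow_le_pow_left₀ (by positivity) h1 2
    have h3 : (Real.sqrt D / 459) ^ 2 = D / 210681 := by
      rw [div_pow, Real.sq_sqrt hDpos.le]; norm_num
    linarith
  -- Q, K
  set Q : ℕ := m1 ^ 2 / (16 * (n + 2)) with hQ
  have hQle : 16 * (n + 2) * Q ≤ m1 ^ 2 := Nat.mul_div_le _ _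
  have hQlt : m1 ^ 2 < 16 * (n + 2) * (Q + 1) := by
    have := Nat.lt_mul_div_succ (m1 ^ 2) (show 0 < 16 * (n + 2) by omega)
    simpa [hQ] using this
  have hQltR : (m1 : ℝ) ^ 2 < 16 * m * ((Q : ℝ) + 1) := by
    have : ((m1 ^ 2 : ℕ) : ℝ) < ((16 * (n + 2) * (Q + 1) : ℕ) : ℝ) := by exact_mod_cast hQlt
    push_cast at this
    rw [hm]
    exact this
  have hQlow : y / 3370896 < (Q : ℝ) + 1 := by
    rw [hy, div_div, div_lt_iff₀ (by positivity)]
    have : D / 210681 < 16 * m * ((Q : ℝ) + 1) := lt_of_le_of_lt hm1sq hQltR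
    rw [div_lt_iff₀ (by norm_num)] at this
    calc D < 16 * m * ((Q : ℝ) + 1) * 210681 := this
      _ = ((Q : ℝ) + 1) * (m * 3370896) := by ring
  have hQ1 : 1 ≤ Q := by
    by_contra h
    have h0 : Q = 0 := Nat.lt_one_iff.mp (not_le.mp h)
    rw [h0, Nat.cast_zero, zero_add] at hQlow
    linarith
  set K : ℕ := Q - 1 with hK
  have hKQ : K + 1 = Q := Nat.sub_add_cancel hQ1
  have hKR : (K : ℝ) + 1 = (Q : ℝ) := by exact_mod_cast hKQ
  have hKlow : y / 4000000 ≤ (K : ℝ) := by
    have h1 : y / 3370896 - 2 < (K : ℝ) := by linarith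
    have h2 : y / 4000000 ≤ y / 3370896 - 2 := by linarith
    linarith
  have hKpos : (0 : ℝ) < K := by
    have : 0 < y / 4000000 := by positivity
    linarith
  -- logarithm of ten
  have hl10l : (2.079 : ℝ) ≤ Real.log 10 := by
    have h1 : Real.log ((2 : ℝ) ^ 3) ≤ Real.log 10 := Real.log_le_log (by norm_num) (by norm_num)
    rw [Real.log_pow] at h1
    push_cast at h1
    linarith
  have hlogy : Real.log y ≤ y / 100000000 + 17.8 := by
    have h1 : Real.log (y / 100000000) ≤ y / 100000000 - 1 := Real.log_le_sub_one_of_pos (by positivity)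
    rw [Real.log_div hypos.ne' (by norm_num)] at h1
    have h2 : Real.log (100000000 : ℝ) ≤ Real.log ((2 : ℝ) ^ 27) :=
      Real.log_le_log (by norm_num) (by norm_num)
    rw [Real.log_pow] at h2
    push_cast at h2
    linarith
  have hlogD : Real.log D = Real.log y + Real.log m := by
    rw [← hyD, Real.log_mul hypos.ne' hmpos.ne']
  have h5 : (10 : ℝ) ^ 10 * D ^ 12 ≤ 10 ^ K := by
    have hL : (0 : ℝ) < 10 ^ 10 * D ^ 12 := by positivity
    have hR : (0 : ℝ) < (10 : ℝ) ^ K := by positivity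
    rw [← Real.log_le_log_iff hL hR, Real.log_mul (by norm_num) (by positivity), Real.log_pow,
      Real.log_pow, Real.log_pow]
    have h2 : Real.log ((10 : ℝ) ^ 10) ≤ Real.log ((2 : ℝ) ^ 34) :=
      Real.log_le_log (by norm_num) (by norm_num)
    rw [Real.log_pow, Real.log_pow] at h2
    push_cast at h2 ⊢
    have h3 : (y / 4000000) * 2.079 ≤ (K : ℝ) * Real.log 10 :=
      mul_le_mul hKlow hl10l (by norm_num) hKpos.le
    rw [hlogD]
    linarith
  have hRD : (R : ℝ) ≤ D / 10000000000 := by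
    rw [le_div_iff₀ (by norm_num)]
    linarith
  have hR1 : (1 : ℝ) ≤ R := by exact_mod_cast hR
  have hD12 : D ≤ D ^ 12 := by
    calc D = D ^ 1 := (pow_one D).symm
      _ ≤ D ^ 12 := pow_le_pow_right₀ (by linarith) (by norm_num)
  have hTD : 5 * D ≤ (10 : ℝ) ^ K := by
    have h3 : 0 ≤ D ^ 12 := by positivity
    linarith
  have hTK : 5 * m ≤ (10 : ℝ) ^ K := by linarith
  have hTR : 5 * (R : ℝ) ≤ (10 : ℝ) ^ K := by linarith
  refine ⟨m1, K, by rw [hm1]; omega, ?_, ?_, ?_, h5, ?_, ?_, ?_⟩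
  · have : (1 : ℝ) ≤ (d : ℝ) := by linarith
    exact_mod_cast this
  · have : (R : ℝ) ≤ (d : ℝ) := by linarith
    exact_mod_cast this
  · rw [hm1c]
    have : 459 * ((⌊Real.sqrt D / 459⌋₊ : ℝ) + 1 - 1) = 459 * (⌊Real.sqrt D / 459⌋₊ : ℝ) := by ring
    rw [this]
    linarith
  · -- 8 m log(48 d m + 1) + 6 ≤ d^2
    have hcast : ((n + 2 : ℕ) : ℝ) = m := by rw [hm]; push_cast; ring
    rw [hcast]
    have hmD : m ≤ D / 1000000000 := by
      rw [le_div_iff₀ (by norm_num)]; linarith
    have h1 : 48 * D * m + 1 ≤ (7 * D) ^ 2 := by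
      have e1 : D * m ≤ D * (D / 1000000000) := mul_le_mul_of_nonneg_left hmD hDpos.le
      have e2 : D * (D / 1000000000) = D * D / 1000000000 := by ring
      have e3 : (7 * D) ^ 2 = 49 * (D * D) := by ring
      have e4 : 48 * D * m = 48 * (D * m) := by ring
      rw [e3, e4]
      linarith
    have h2 : Real.log (48 * D * m + 1) ≤ 14 * D := by
      calc Real.log (48 * D * m + 1) ≤ Real.log ((7 * D) ^ 2) :=
            Real.log_le_log (by positivity) h1
        _ = 2 * Real.log (7 * D) := by rw [Real.log_pow]; push_cast; ring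
        _ ≤ 2 * (7 * D - 1) := by
            have := Real.log_le_sub_one_of_pos (show (0 : ℝ) < 7 * D by positivity)
            linarith
        _ ≤ 14 * D := by linarith
    have h3 : 8 * m * Real.log (48 * D * m + 1) ≤ 8 * (D / 1000000000) * (14 * D) := by
      have hlog0 : 0 ≤ Real.log (48 * D * m + 1) :=
        Real.log_nonneg (by have : 0 ≤ 48 * D * m := by positivity
                            linarith)
      exact mul_le_mul (by linarith) h2 hlog0 (by positivity)
    have e5 : 8 * (D / 1000000000) * (14 * D) = 112 * (D * D / 1000000000) := by ring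
    have e6 : D ^ 2 = D * D := by ring
    rw [e6]
    rw [e5] at h3
    linarith
  · -- (1/10)^K ≤ exp(-c d/m)^4
    rw [← Real.exp_nat_mul]
    have h1 : ((1 : ℝ) / 10) ^ K = Real.exp (-(K * Real.log 10)) := by
      rw [Real.exp_neg, ← Real.log_pow, Real.exp_log (by positivity), one_div, inv_pow]
    rw [h1]
    apply Real.exp_le_exp.mpr
    have h3 : (y / 4000000) * 2.079 ≤ (K : ℝ) * Real.log 10 :=
      mul_le_mul hKlow hl10l (by norm_num) hKpos.le
    have h4 : -(1 / 5000000000000 : ℝ) * D / m = -(y / 5000000000000) := by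
      rw [hy]; field_simp
    rw [h4]
    push_cast
    linarith
  · -- the union bound
    have hcast : ((n + 2 : ℕ) : ℝ) = m := by rw [hm]; push_cast; ring
    rw [hcast]
    set T : ℝ := (10 : ℝ) ^ K with hT
    have hTpos : 0 < T := by positivity
    have hT1 : 1 ≤ T := one_le_pow₀ (by norm_num)
    have hbase : ∀ x : ℝ, 1 ≤ x → 5 * x ≤ T → 4 * x * T + 1 ≤ T ^ 2 := by
      intro x hx hxT
      have e1 : 5 * x * T ≤ T * T := mul_le_mul_of_nonneg_right hxT hTpos.le
      have e2 : (1 : ℝ) * 1 ≤ x * T := mul_le_mul hx hT1 (by norm_num) (by linarith)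
      have e3 : T ^ 2 = T * T := by ring
      rw [e3]
      linarith
    have hinv : ((1 : ℝ) / 10) ^ K = T⁻¹ := by rw [hT, one_div, inv_pow]
    rw [hinv]
    set e₁ : ℕ := 2 * (n + 2) * (K + 1) with he₁
    set e₂ : ℕ := 2 * R with he₂
    have h8 : 8 * e₁ ≤ m1 ^ 2 := by
      have : 8 * e₁ = 16 * (n + 2) * Q := by rw [he₁, hKQ]; ring
      rw [this]; exact hQle
    have h8' : 8 * e₂ ≤ m1 ^ 2 := by
      have h1 : (16 : ℝ) * R ≤ (m1 : ℝ) ^ 2 := by
        refine le_trans ?_ hm1sq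
        rw [le_div_iff₀ (by norm_num)]
        linarith
      have h2 : ((8 * e₂ : ℕ) : ℝ) ≤ ((m1 ^ 2 : ℕ) : ℝ) := by
        rw [he₂]
        push_cast
        linarith
      exact_mod_cast h2
    set e : ℕ := e₁ + e₂ with he
    have he4 : 4 * e ≤ m1 ^ 2 := by omega
    have hA : (4 * m * T + 1) ^ e₁ * (4 * (R : ℝ) * T + 1) ^ e₂ * (T⁻¹) ^ (m1 ^ 2) ≤
        (T⁻¹) ^ (2 * e) := by
      have h1 : (4 * m * T + 1) ^ e₁ ≤ (T ^ 2) ^ e₁ :=
        pow_le_pow_left₀ (by positivity) (hbase m (by linarith) hTK) e₁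
      have h1' : (4 * (R : ℝ) * T + 1) ^ e₂ ≤ (T ^ 2) ^ e₂ :=
        pow_le_pow_left₀ (by positivity) (hbase R hR1 hTR) e₂
      have h2 : (T⁻¹) ^ (m1 ^ 2) ≤ (T⁻¹) ^ (4 * e) :=
        pow_le_pow_of_le_one (by positivity) (inv_le_one_of_one_le₀ hT1) he4
      calc (4 * m * T + 1) ^ e₁ * (4 * (R : ℝ) * T + 1) ^ e₂ * (T⁻¹) ^ (m1 ^ 2)
          ≤ ((T ^ 2) ^ e₁ * (T ^ 2) ^ e₂) * (T⁻¹) ^ (4 * e) :=
            mul_le_mul (mul_le_mul h1 h1' (by positivity) (by positivity)) h2 (by positivity)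
              (by positivity)
        _ = (T ^ 2) ^ e * (T⁻¹) ^ (4 * e) := by rw [← pow_add]
        _ = (T⁻¹) ^ (2 * e) := by
            rw [← pow_mul, show 4 * e = 2 * e + 2 * e by ring, pow_add, ← mul_assoc,
              ← mul_pow, mul_inv_cancel₀ hTpos.ne', one_pow, one_mul]
    have hexp : (T⁻¹) ^ (2 * e) = Real.exp (-((2 * e : ℕ) * (K * Real.log 10))) := by
      have h1 : (K : ℝ) * Real.log 10 = Real.log T := by rw [hT, Real.log_pow]
      rw [Real.exp_neg, h1, ← Real.log_pow, Real.exp_log (by positivity), inv_pow]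
    have hdm : D ^ 2 / m = y * y * m := by
      rw [hy]; field_simp
    have hmain : 0.51 / 1000000000000 * (D ^ 2 / m) ≤ ((2 * e : ℕ) : ℝ) * (K * Real.log 10) := by
      have h3 : (y / 4000000) * 2.079 ≤ (K : ℝ) * Real.log 10 :=
        mul_le_mul hKlow hl10l (by norm_num) hKpos.le
      have h4 : 4 * m * ((K : ℝ) + 1) ≤ ((2 * e : ℕ) : ℝ) := by
        have h6 : ((2 * e₁ : ℕ) : ℝ) = 4 * m * ((K : ℝ) + 1) := by
          rw [he₁]; push_cast; rw [hm]; ring
        rw [← h6]
        exact_mod_cast (by omega : 2 * e₁ ≤ 2 * e)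
      have h5 : 4 * m * (y / 4000000) ≤ ((2 * e : ℕ) : ℝ) := by
        refine le_trans ?_ h4
        exact mul_le_mul_of_nonneg_left (by linarith) (by positivity)
      calc 0.51 / 1000000000000 * (D ^ 2 / m) = 0.51 / 1000000000000 * (y * y * m) := by rw [hdm]
        _ ≤ (4 * m * (y / 4000000)) * ((y / 4000000) * 2.079) := by
            have h6 : 0 ≤ y * y * m := by positivity
            have h7 : (4 * m * (y / 4000000)) * ((y / 4000000) * 2.079) =
                0.51975 / 1000000000000 * (y * y * m) := by ring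
            rw [h7]
            apply mul_le_mul_of_nonneg_right _ h6
            norm_num
        _ ≤ ((2 * e : ℕ) : ℝ) * (K * Real.log 10) :=
            mul_le_mul h5 h3 (by positivity) (by positivity)
    have hbig : (1000000000000000000 : ℝ) ≤ D ^ 2 / m := by
      rw [hdm]
      have : (10000000000 : ℝ) * 10000000000 ≤ y * y := mul_le_mul hy9 hy9 (by norm_num) hypos.le
      calc (1000000000000000000 : ℝ) ≤ 10000000000 * 10000000000 * 1 := by norm_num
        _ ≤ y * y * m := mul_le_mul this (by linarith) (by norm_num) (by positivity)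
    have hE1 : R * Real.exp (-D ^ 2 / 4) ≤ Real.exp (-(0.51 / 1000000000000 * (D ^ 2 / m))) := by
      have h0 : (R : ℝ) ≤ Real.exp (D ^ 2 / 8) := by
        have h1 := Real.add_one_le_exp (D ^ 2 / 8)
        have h2 : D ≤ D ^ 2 / 8 := by
          rw [le_div_iff₀ (by norm_num)]
          nlinarith
        linarith
      have h2 : R * Real.exp (-D ^ 2 / 4) ≤ Real.exp (D ^ 2 / 8) * Real.exp (-D ^ 2 / 4) :=
        mul_le_mul_of_nonneg_right h0 (Real.exp_pos _).le
      refine h2.trans ?_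
      rw [← Real.exp_add]
      apply Real.exp_le_exp.mpr
      have h1 : D ^ 2 / m ≤ D ^ 2 := div_le_self (by positivity) (by linarith)
      have h3 : 0 ≤ D ^ 2 := by positivity
      have h4 : 0.51 / 1000000000000 * (D ^ 2 / m) ≤ 0.51 / 1000000000000 * D ^ 2 :=
        mul_le_mul_of_nonneg_left h1 (by norm_num)
      have h6 : 0.51 / 1000000000000 * D ^ 2 ≤ D ^ 2 / 8 := by
        have : (0.51 / 1000000000000 : ℝ) ≤ 1 / 8 := by norm_num
        nlinarith
      linarith
    have hE2 : (4 * m * T + 1) ^ e₁ * (4 * (R : ℝ) * T + 1) ^ e₂ * (T⁻¹) ^ (m1 ^ 2) ≤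
        Real.exp (-(0.51 / 1000000000000 * (D ^ 2 / m))) := by
      refine hA.trans ?_
      rw [hexp]
      exact Real.exp_le_exp.mpr (by linarith)
    have hfin : 2 * Real.exp (-(0.51 / 1000000000000 * (D ^ 2 / m))) ≤
        Real.exp (-(1 / 5000000000000) * D ^ 2 / m) := by
      have h1 : (2 : ℝ) = Real.exp (Real.log 2) := (Real.exp_log (by norm_num)).symm
      have h2 : -(1 / 5000000000000 : ℝ) * D ^ 2 / m = -(1 / 5000000000000 * (D ^ 2 / m)) := by
        ring
      rw [h2]
      calc 2 * Real.exp (-(0.51 / 1000000000000 * (D ^ 2 / m)))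
          = Real.exp (Real.log 2) * Real.exp (-(0.51 / 1000000000000 * (D ^ 2 / m))) := by
            rw [← h1]
        _ = Real.exp (Real.log 2 + -(0.51 / 1000000000000 * (D ^ 2 / m))) := by
            rw [Real.exp_add]
        _ ≤ Real.exp (-(1 / 5000000000000 * (D ^ 2 / m))) := by
            apply Real.exp_le_exp.mpr
            linarith
    linarith

end Pool.Agent.H13.RL
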