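import Pool.Agent.H13.RL.Prob
import Pool.Agent.H13.RL.Num
import Pool.Agent.H48.RK.DefsL
import Pool.Agent.H48.RK.Alg
import Pool.Agent.H48.RK.Gau2
import Pool.Agent.H48.RK.LipNet
import Pool.Agent.H72.RK.Gau
import Pool.Agent.H72.RK.BadToD
import Pool.Agent.H74.RK.Geo
import Pool.Agent.H77.RK.Grid
import Pool.Agent.H8.RK.Kos

/-!
# Theorem L without hypotheses
-/

set_option autoImplicit false

namespace Pool.Agent.H13.RL

open MeasureTheory Metric Set
open scoped BigOperators ComplexConjugate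
open Pool.Agent.H48.RK

/-- THEOREM L -/
theorem theoremL_holds : TheoremL :=
  theoremL Pool.Agent.H72.RK.gamTail lip net Pool.Agent.H8.RK.kernel Pool.Agent.H8.RK.formSmul
    Pool.Agent.H8.RK.formDiff (smallBall Pool.Agent.H72.RK.gamUniv Pool.Agent.H72.RK.gamShift)
    Pool.Agent.H77.RK.grid Pool.Agent.H77.RK.gridIn cells Pool.Agent.H74.RK.geoD numL

lemma exp_mono_c {c c' x : ℝ} (h : c' ≤ c) (hx : 0 ≤ x) {y : ℝ} (hy : 0 < y) :
    Real.exp (-c * x / y) ≤ Real.exp (-c' * x / y) := by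
  apply Real.exp_le_exp.2
  apply div_le_div_of_nonneg_right _ hy.le
  nlinarith

/-- THEOREM L in the form of `H48/RK/DefsL.lean` -/
theorem theoremL48 : Pool.Agent.H48.RK.TheoremL := by
  obtain ⟨C, c, hC, hc, h⟩ := theoremL_holds
  refine ⟨C, min c C⁻¹, hC, lt_min hc (inv_pos.2 hC), fun n d k hn h1 h2 A₀ hA s hs => ?_⟩
  have hd0 : (0 : ℝ) ≤ d := Nat.cast_nonneg d
  have hn0 : (0 : ℝ) < (n : ℝ) + 2 := by positivity
  have h3 : C * ((k + 1 : ℕ) : ℝ) ≤ d := by
    push_cast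
    have h4 : (k : ℝ) + 1 ≤ C⁻¹ * d := h2.trans (mul_le_mul_of_nonneg_right (min_le_right _ _) hd0)
    calc C * ((k : ℝ) + 1) ≤ C * (C⁻¹ * d) := mul_le_mul_of_nonneg_left h4 hC.le
      _ = d := by rw [← mul_assoc, mul_inv_cancel₀ hC.ne', one_mul]
  have h5 := h n d (k + 1) hn (by omega) h1 h3 A₀ hA s
    ((exp_mono_c (min_le_left _ _) hd0 hn0).trans hs)
  refine le_trans (measure_mono ?_) (h5.trans (ENNReal.ofReal_le_ofReal
    (exp_mono_c (min_le_left _ _) (sq_nonneg _) hn0)))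
  rintro a ⟨l, hl, hb⟩
  refine ⟨WithLp.toLp 2 l, fun h0 => hl ?_, ?_⟩
  · have := congrArg WithLp.ofLp h0
    simpa using this
  · have e : comb (WithLp.toLp 2 l) (sys A₀ (s : ℂ) a) =
        ∑ i, l i • (fun α => A₀ i α + (s : ℂ) * a (i, α)) := by
      funext t
      simp [comb, sys, Finset.sum_apply]
    rw [e]
    exact hb

theorem alg_holds : Alg := alg Pool.Agent.H72.RK.gamUniv theoremL48 zero Pool.Agent.H72.RK.badToD

end Pool.Agent.H13.RL

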