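import Pool.Agent.H48.RK.Defs
import Pool.Agent.H48.RK.Cell

/-!
# Linear systems all of whose members are hyperbolic (MP_b509a1_ag, Theorem L): definitions
-/

set_option autoImplicit false

namespace Pool.Agent.H13.RL

open MeasureTheory Metric Set
open scoped BigOperators ComplexConjugate
open Pool.Agent.H48.RK

/-- the member `lam` of the linear system spanned by `b 0, …, b (R - 1)` -/
def comb {T : Type*} {R : ℕ} (lam : E R) (b : Fin R → T → ℂ) : T → ℂ := fun t => ∑ i, lam i * b i t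

/-- the random linear system `g + s a` -/
def sys {T : Type*} {R : ℕ} (g : Fin R → T → ℂ) (s : ℂ) (a : Fin R × T → ℂ) : Fin R → T → ℂ :=
  fun i t => g i t + s * a (i, t)

/-- some member of the system contains a disc with Fubini-Study derivative at least `4` -/
def BadL {m d R : ℕ} (b : Fin R → Idx m d → ℂ) : Prop := ∃ lam : E R, lam ≠ 0 ∧ BadD (comb lam b)

/-- the generators of the base system are bounded by `1` -/
def BddL {m d R : ℕ} (g : Fin R → Idx m d → ℂ) : Prop :=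
  ∀ i, ∀ z : E m, ‖z‖ ≤ 1 → ‖form (g i) z.ofLp‖ ≤ 1

/-- THEOREM L -/
def TheoremL : Prop := ∃ C c : ℝ, 0 < C ∧ 0 < c ∧ ∀ n d R : ℕ, 1 ≤ n → 1 ≤ R →
  C * (n + 2) * Real.log (n + 2) ≤ d → C * R ≤ d →
  ∀ g : Fin R → Idx (n + 2) d → ℂ, BddL g →
    ∀ s : ℝ, Real.exp (-c * d / (n + 2)) ≤ s →
      gam (Fin R × Idx (n + 2) d) {a | BadL (sys g (s : ℂ) a)} ≤
        ENNReal.ofReal (Real.exp (-c * d ^ 2 / (n + 2)))

/-- NUM for linear systems -/
def NumL : Prop := ∃ C c : ℝ, 0 < C ∧ 0 < c ∧ ∀ n d R : ℕ, 1 ≤ n → 1 ≤ R →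
  C * (n + 2) * Real.log (n + 2) ≤ d → C * R ≤ d → ∃ m1 K : ℕ, 1 ≤ m1 ∧ 1 ≤ d ∧ R ≤ d ∧
    459 * ((m1 : ℝ) - 1) ≤ Real.sqrt d ∧
    10 ^ 10 * (d : ℝ) ^ 12 ≤ 10 ^ K ∧
    8 * ((n + 2 : ℕ) : ℝ) * Real.log (48 * d * ((n + 2 : ℕ) : ℝ) + 1) + 6 ≤ (d : ℝ) ^ 2 ∧
    (1 / 10 : ℝ) ^ K ≤ Real.exp (-c * d / (n + 2)) ^ 4 ∧
    R * Real.exp (-(d : ℝ) ^ 2 / 4) +
        (4 * ((n + 2 : ℕ) : ℝ) * 10 ^ K + 1) ^ (2 * (n + 2) * (K + 1)) *
          (4 * (R : ℝ) * 10 ^ K + 1) ^ (2 * R) * ((1 / 10 : ℝ) ^ K) ^ (m1 ^ 2) ≤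
      Real.exp (-c * d ^ 2 / (n + 2))

lemma form_comb {m d R : ℕ} (lam : E R) (b : Fin R → Idx m d → ℂ) (z : Fin m → ℂ) :
    form (comb lam b) z = ∑ i, lam i * form (b i) z := by
  simp only [form, comb, Finset.sum_mul, Finset.mul_sum]
  rw [Finset.sum_comm]
  refine Finset.sum_congr rfl fun i _ => Finset.sum_congr rfl fun α _ => ?_
  ring

lemma comb_sys {m d R : ℕ} (lam : E R) (g : Fin R → Idx m d → ℂ) (s : ℂ)
    (a : Fin R × Idx m d → ℂ) (z : Fin m → ℂ) :
    form (comb lam (sys g s a)) z =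
      form (comb lam g) z + s * form (comb lam fun i α => a (i, α)) z := by
  simp only [form_comb, Finset.mul_sum, ← Finset.sum_add_distrib]
  refine Finset.sum_congr rfl fun i _ => ?_
  have : form (sys g s a i) z = form (g i) z + s * form (fun α => a (i, α)) z := by
    simp only [form, sys, Finset.mul_sum, ← Finset.sum_add_distrib]
    refine Finset.sum_congr rfl fun α _ => ?_
    ring
  rw [this]
  ring

lemma comb_sub {T : Type*} {R : ℕ} (lam mu : E R) (b : Fin R → T → ℂ) :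
    comb (lam - mu) b = comb lam b - comb mu b := by
  funext t
  simp only [comb, Pi.sub_apply, ← Finset.sum_sub_distrib]
  refine Finset.sum_congr rfl fun i _ => ?_
  rw [show (lam - mu) i = lam i - mu i from rfl]
  ring

lemma comb_smul {T : Type*} {R : ℕ} (c : ℂ) (lam : E R) (b : Fin R → T → ℂ) :
    comb (c • lam) b = c • comb lam b := by
  funext t
  simp only [comb, Pi.smul_apply, smul_eq_mul, Finset.mul_sum]
  refine Finset.sum_congr rfl fun i _ => ?_
  rw [show (c • lam) i = c * lam i from rfl]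
  ring

lemma form_smul_coef {m d : ℕ} (c : ℂ) (a : Idx m d → ℂ) (z : Fin m → ℂ) :
    form (c • a) z = c * form a z := by
  simp only [form, Pi.smul_apply, smul_eq_mul, Finset.mul_sum, mul_assoc]

lemma form_sub_coef {m d : ℕ} (a b : Idx m d → ℂ) (z : Fin m → ℂ) :
    form (a - b) z = form a z - form b z := by
  simp only [form, Pi.sub_apply, sub_mul, Finset.sum_sub_distrib]

/-- a nonzero multiple of a bad form is bad -/
lemma badD_smul {m d : ℕ} {a : Idx m d → ℂ} (c : ℂ) (h : BadD a) : BadD (c • a) := by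
  obtain ⟨f, h1, h2, h3, h4⟩ := h
  exact ⟨f, h1, h2, fun z hz => by rw [form_smul_coef, h3 z hz, mul_zero], h4⟩

/-- CELL for the parameters of the linear system -/
theorem cellL (R K : ℕ) (hR : 1 ≤ R) :
    ∃ (C : Type) (_ : Fintype C) (cell : E R → C),
      Fintype.card C ≤ (4 * R * 10 ^ K + 1) ^ (2 * R) ∧
      ∀ lam mu : E R, ‖lam‖ = 1 → ‖mu‖ = 1 → cell lam = cell mu → ‖lam - mu‖ ≤ (1 / 10) ^ K := by
  set N : ℕ := 2 * R * 10 ^ K with hNdef
  have hN : 0 < N := by positivity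
  refine ⟨Fin R → Fin (2 * N + 1) × Fin (2 * N + 1), inferInstance,
    fun lam i => (rd N (lam i).re, rd N (lam i).im), ?_, ?_⟩
  · simp only [Fintype.card_pi, Fintype.card_prod, Fintype.card_fin, Finset.prod_const,
      Finset.card_univ]
    rw [← pow_two, ← pow_mul]
    have e1 : 2 * N + 1 = 4 * R * 10 ^ K + 1 := by rw [hNdef]; ring
    rw [e1]
  · intro lam mu hl hm hc
    have hN0 : (0 : ℝ) < N := by exact_mod_cast hN
    have hco : ∀ i : Fin R, ‖(lam - mu) i‖ ^ 2 ≤ 2 * (1 / N : ℝ) ^ 2 := by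
      intro i
      have h1 := congrFun hc i
      simp only [Prod.mk.injEq] at h1
      have hb : ‖lam i‖ ≤ 1 := (coord_le _ i).trans hl.le
      have hb' : ‖mu i‖ ≤ 1 := (coord_le _ i).trans hm.le
      have hre := rd_eq hN ((Complex.abs_re_le_norm _).trans hb)
        ((Complex.abs_re_le_norm _).trans hb') h1.1
      have him := rd_eq hN ((Complex.abs_im_le_norm _).trans hb)
        ((Complex.abs_im_le_norm _).trans hb') h1.2
      rw [Complex.sq_norm, Complex.normSq_apply]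
      have e : (lam - mu) i = lam i - mu i := rfl
      rw [e, Complex.sub_re, Complex.sub_im, ← pow_two, ← pow_two, two_mul]
      exact add_le_add (sq_le_sq' (by linarith [(abs_le.1 hre).1]) (abs_le.1 hre).2)
        (sq_le_sq' (by linarith [(abs_le.1 him).1]) (abs_le.1 him).2)
    have h2 : ‖lam - mu‖ ^ 2 ≤ ((1 / 10 : ℝ) ^ K) ^ 2 := by
      rw [EuclideanSpace.norm_sq_eq]
      calc ∑ i, ‖(lam - mu) i‖ ^ 2 ≤ ∑ _i : Fin R, 2 * (1 / N : ℝ) ^ 2 :=
            Finset.sum_le_sum fun i _ => hco i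
        _ = R * (2 * (1 / N : ℝ) ^ 2) := by
            rw [Finset.sum_const, Finset.card_univ, Fintype.card_fin, nsmul_eq_mul]
        _ ≤ ((1 / 10 : ℝ) ^ K) ^ 2 := by
            have hm0 : (1 : ℝ) ≤ R := by exact_mod_cast hR
            have hNe : (N : ℝ) = 2 * R * 10 ^ K := by rw [hNdef]; push_cast; ring
            rw [hNe]
            have hp : (0 : ℝ) < 10 ^ K := by positivity
            have e3 : (R : ℝ) * (2 * (1 / (2 * R * 10 ^ K)) ^ 2) =
                1 / (2 * R) * ((1 / 10) ^ K) ^ 2 := by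
              rw [one_div_pow (10 : ℝ) K]
              field_simp
            rw [e3]
            have h4 : 1 / (2 * (R : ℝ)) ≤ 1 := by
              rw [div_le_iff₀ (by positivity)]
              nlinarith
            calc 1 / (2 * (R : ℝ)) * ((1 / 10 : ℝ) ^ K) ^ 2 ≤ 1 * ((1 / 10 : ℝ) ^ K) ^ 2 :=
                  mul_le_mul_of_nonneg_right h4 (sq_nonneg _)
              _ = _ := one_mul _
    exact (sq_le_sq₀ (norm_nonneg _) (by positivity)).1 h2

end Pool.Agent.H13.RL
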