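import Pool.Agent.H13.RL.Sup

/-!
# Proof of Theorem L from the modules
-/

set_option autoImplicit false

namespace Pool.Agent.H13.RL

open MeasureTheory Metric Set
open scoped BigOperators ComplexConjugate
open Pool.Agent.H48.RK

/-- radial projection does not increase distances outside the unit ball -/
theorem norm_unit_sub_le {m : ℕ} (x y : E m) (hx : 1 ≤ ‖x‖) (hy : 1 ≤ ‖y‖) :
    ‖((‖x‖⁻¹ : ℝ) : ℂ) • x - ((‖y‖⁻¹ : ℝ) : ℂ) • y‖ ≤ ‖x - y‖ := by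
  have hx0 : 0 < ‖x‖ := lt_of_lt_of_le one_pos hx
  have hy0 : 0 < ‖y‖ := lt_of_lt_of_le one_pos hy
  have h1 : ‖x - y‖ ^ 2 = ‖x‖ ^ 2 - 2 * RCLike.re (inner ℂ x y) + ‖y‖ ^ 2 := norm_sub_sq x y
  have h2 : ‖((‖x‖⁻¹ : ℝ) : ℂ) • x - ((‖y‖⁻¹ : ℝ) : ℂ) • y‖ ^ 2 =
      1 - 2 * (‖x‖⁻¹ * ‖y‖⁻¹ * RCLike.re (inner ℂ x y)) + 1 := by
    rw [norm_sub_sq (𝕜 := ℂ)]
    have e1 : ‖((‖x‖⁻¹ : ℝ) : ℂ) • x‖ = 1 := by
      rw [norm_smul, Complex.norm_real, norm_inv, norm_norm, inv_mul_cancel₀ hx0.ne']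
    have e2 : ‖((‖y‖⁻¹ : ℝ) : ℂ) • y‖ = 1 := by
      rw [norm_smul, Complex.norm_real, norm_inv, norm_norm, inv_mul_cancel₀ hy0.ne']
    have e3 : inner ℂ (((‖x‖⁻¹ : ℝ) : ℂ) • x) (((‖y‖⁻¹ : ℝ) : ℂ) • y) =
        ((‖x‖⁻¹ * ‖y‖⁻¹ : ℝ) : ℂ) * inner ℂ x y := by
      rw [inner_smul_left, inner_smul_right, Complex.conj_ofReal]
      push_cast
      ring
    rw [e1, e2, e3]
    have e4 : RCLike.re (((‖x‖⁻¹ * ‖y‖⁻¹ : ℝ) : ℂ) * inner ℂ x y) =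
        ‖x‖⁻¹ * ‖y‖⁻¹ * RCLike.re (inner ℂ x y) := by
      show (((‖x‖⁻¹ * ‖y‖⁻¹ : ℝ) : ℂ) * inner ℂ x y).re = ‖x‖⁻¹ * ‖y‖⁻¹ * (inner ℂ x y).re
      rw [Complex.re_ofReal_mul]
    rw [e4]
    ring
  have h3 : RCLike.re (inner ℂ x y) ≤ ‖x‖ * ‖y‖ := re_inner_le_norm x y
  have h4 : ‖x‖⁻¹ * ‖y‖⁻¹ ≤ 1 := by
    rw [← mul_inv]
    exact inv_le_one_of_one_le₀ (one_le_mul_of_one_le_of_one_le hx hy)
  have h5 : ‖x‖⁻¹ * ‖y‖⁻¹ * (‖x‖ * ‖y‖) = 1 := by field_simp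
  refine (sq_le_sq₀ (norm_nonneg _) (norm_nonneg _)).1 ?_
  rw [h1, h2]
  have h6 : (1 - ‖x‖⁻¹ * ‖y‖⁻¹) * RCLike.re (inner ℂ x y) ≤
      (1 - ‖x‖⁻¹ * ‖y‖⁻¹) * (‖x‖ * ‖y‖) := mul_le_mul_of_nonneg_left h3 (by linarith)
  nlinarith [sq_nonneg (‖x‖ - ‖y‖)]

theorem disc_norm_ge {m : ℕ} {h : ℂ → E m} (H : Disc h) {t : ℂ} (ht : t ∈ ball (0 : ℂ) 1) :
    1 ≤ ‖h t‖ := by
  have h1 := H.orth t ht
  rw [inner_sub_right, sub_eq_zero] at h1
  have h2 : inner ℂ (h 0) (h 0) = (1 : ℂ) := by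
    rw [inner_self_eq_norm_sq_to_K, H.unit]
    simp
  have h3 := norm_inner_le_norm (𝕜 := ℂ) (h 0) (h t)
  rw [h1, h2, H.unit, one_mul, norm_one] at h3
  exact h3

variable {m d R : ℕ}

/-- bound for the members of a good system -/
theorem member_le (_hFS : FormSmul) (hd : 1 ≤ d) (hR : R ≤ d) {g : Fin R → Idx m d → ℂ}
    (hg : BddL g) {s : ℝ} (hs0 : 0 ≤ s) (hs1 : s ≤ 1) {a : Fin R × Idx m d → ℂ}
    (ha : a ∉ Large R m d) (mu : E R) (z : E m) (hz : ‖z‖ = 1) :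
    ‖form (comb mu (sys g (s : ℂ) a)) z.ofLp‖ ≤ 3 * (d : ℝ) ^ 2 * ‖mu‖ := by
  have hd' : (1 : ℝ) ≤ d := by exact_mod_cast hd
  have hR' : (R : ℝ) ≤ d := by exact_mod_cast hR
  have h1 : ‖form (comb mu g) z.ofLp‖ ≤ (d : ℝ) ^ 2 * ‖mu‖ := by
    rw [form_comb]
    calc ‖∑ i, mu i * form (g i) z.ofLp‖
        ≤ ∑ i, ‖mu i * form (g i) z.ofLp‖ := norm_sum_le _ _
      _ ≤ ∑ _i : Fin R, ‖mu‖ * 1 := by
          refine Finset.sum_le_sum fun i _ => ?_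
          rw [norm_mul]
          exact mul_le_mul (coord_le mu i) (hg i z hz.le) (norm_nonneg _) (norm_nonneg _)
      _ = (R : ℝ) * ‖mu‖ := by
          rw [Finset.sum_const, Finset.card_univ, Fintype.card_fin, nsmul_eq_mul, mul_one]
      _ ≤ d * ‖mu‖ := mul_le_mul_of_nonneg_right hR' (norm_nonneg _)
      _ ≤ (d : ℝ) ^ 2 * ‖mu‖ := by
          apply mul_le_mul_of_nonneg_right _ (norm_nonneg _)
          nlinarith
  have h2 : ‖form (comb mu fun i α => a (i, α)) z.ofLp‖ ≤ 2 * (d : ℝ) ^ 2 * ‖mu‖ := by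
    rw [form_comb]
    calc ‖∑ i, mu i * form (fun α => a (i, α)) z.ofLp‖
        ≤ ∑ i, ‖mu i * form (fun α => a (i, α)) z.ofLp‖ := norm_sum_le _ _
      _ ≤ ∑ _i : Fin R, ‖mu‖ * (2 * d) := by
          refine Finset.sum_le_sum fun i _ => ?_
          rw [norm_mul]
          refine mul_le_mul (coord_le mu i) ?_ (norm_nonneg _) (norm_nonneg _)
          by_contra hc
          push Not at hc
          exact ha ⟨i, z, hz, hc⟩
      _ = (R : ℝ) * (‖mu‖ * (2 * d)) := by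
          rw [Finset.sum_const, Finset.card_univ, Fintype.card_fin, nsmul_eq_mul]
      _ ≤ d * (‖mu‖ * (2 * d)) := mul_le_mul_of_nonneg_right hR' (by positivity)
      _ = 2 * (d : ℝ) ^ 2 * ‖mu‖ := by ring
  rw [comb_sys]
  refine (norm_add_le _ _).trans ?_
  rw [norm_mul, Complex.norm_real, Real.norm_of_nonneg hs0]
  have h3 : s * ‖form (comb mu fun i α => a (i, α)) z.ofLp‖ ≤ 1 * (2 * (d : ℝ) ^ 2 * ‖mu‖) :=
    mul_le_mul hs1 h2 (norm_nonneg _) zero_le_one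
  linarith

/-- the deterministic part: the member of the cell is small at the grid points -/
theorem value_le (hL : Lip) (hFS : FormSmul) (hFD : FormDiff) (hd : 1 ≤ d) (hR : R ≤ d)
    {g : Fin R → Idx m d → ℂ} (hg : BddL g) {s : ℝ} (hs0 : 0 ≤ s) (hs1 : s ≤ 1)
    {a : Fin R × Idx m d → ℂ} (ha : a ∉ Large R m d) {lam mu : E R} (hl : ‖lam‖ = 1)
    {ε : ℝ} (hε : ε ≤ 1 / (2 * d)) (hlm : ‖lam - mu‖ ≤ ε)
    {h h' : ℂ → E m} (H : Disc h) (H' : Disc h') {t : ℂ} (ht : t ∈ ball (0 : ℂ) 1)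
    (hhh : ‖h t - h' t‖ ≤ ε) (h0 : form (comb lam (sys g (s : ℂ) a)) (h t).ofLp = 0) :
    ‖form (comb mu (sys g (s : ℂ) a)) (uv h' t).ofLp‖ ≤ 21 * (d : ℝ) ^ 3 * ε := by
  have hd' : (1 : ℝ) ≤ d := by exact_mod_cast hd
  have hε0 : 0 ≤ ε := (norm_nonneg _).trans hhh
  have hnt := disc_norm_ge H ht
  have hnt' := disc_norm_ge H' ht
  have hu : ‖uv h t‖ = 1 := by
    rw [uv, norm_smul, Complex.norm_real, norm_inv, norm_norm, inv_mul_cancel₀]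
    linarith
  have hu' : ‖uv h' t‖ = 1 := by
    rw [uv, norm_smul, Complex.norm_real, norm_inv, norm_norm, inv_mul_cancel₀]
    linarith
  have hz0 : form (comb lam (sys g (s : ℂ) a)) (uv h t).ofLp = 0 := by
    rw [uv, WithLp.ofLp_smul, hFS, h0, mul_zero]
  have hdist : ‖uv h' t - uv h t‖ ≤ ε := by
    rw [norm_sub_rev]
    exact (norm_unit_sub_le _ _ hnt hnt').trans hhh
  have hS : ∀ z : E m, ‖form (comb lam (sys g (s : ℂ) a)) z.ofLp‖ ≤ 3 * (d : ℝ) ^ 2 * ‖z‖ ^ d := by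
    apply norm_form_le hFS hd
    intro z hz
    have := member_le hFS hd hR hg hs0 hs1 ha lam z hz
    rwa [hl, mul_one] at this
  have h1 := hL m d hd (fun z : E m => form (comb lam (sys g (s : ℂ) a)) z.ofLp) (hFD m d _)
    (3 * (d : ℝ) ^ 2) hS (uv h t) (uv h' t) hu (hdist.trans hε)
  simp only [hz0, sub_zero] at h1
  have h2 : ‖form (comb lam (sys g (s : ℂ) a)) (uv h' t).ofLp‖ ≤ 18 * (d : ℝ) ^ 3 * ε := by
    refine h1.trans ?_
    calc 6 * (d : ℝ) * (3 * (d : ℝ) ^ 2) * ‖uv h' t - uv h t‖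
        ≤ 6 * (d : ℝ) * (3 * (d : ℝ) ^ 2) * ε := mul_le_mul_of_nonneg_left hdist (by positivity)
      _ = 18 * (d : ℝ) ^ 3 * ε := by ring
  have h3 : ‖form (comb (mu - lam) (sys g (s : ℂ) a)) (uv h' t).ofLp‖ ≤ 3 * (d : ℝ) ^ 3 * ε := by
    refine (member_le hFS hd hR hg hs0 hs1 ha (mu - lam) _ hu').trans ?_
    rw [norm_sub_rev]
    have h4 : 3 * (d : ℝ) ^ 2 * ‖lam - mu‖ ≤ 3 * (d : ℝ) ^ 2 * ε :=
      mul_le_mul_of_nonneg_left hlm (by positivity)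
    refine h4.trans ?_
    apply mul_le_mul_of_nonneg_right _ hε0
    have : (d : ℝ) ^ 2 ≤ (d : ℝ) ^ 3 := pow_le_pow_right₀ hd' (by norm_num)
    linarith
  have h5 : form (comb mu (sys g (s : ℂ) a)) (uv h' t).ofLp =
      form (comb lam (sys g (s : ℂ) a)) (uv h' t).ofLp +
        form (comb (mu - lam) (sys g (s : ℂ) a)) (uv h' t).ofLp := by
    rw [comb_sub, form_sub_coef]
    ring
  rw [h5]
  refine (norm_add_le _ _).trans ?_
  linarith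

/-- the vectors of the small ball estimate -/
noncomputable def vec (mu : E R) (z : E m) : Fin R × Idx m d → ℂ := fun t => mu t.1 * phi z.ofLp t.2

lemma sum_vec (mu : E R) (z : E m) (a : Fin R × Idx m d → ℂ) :
    ∑ t, a t * vec mu z t = form (comb mu fun i α => a (i, α)) z.ofLp := by
  rw [form_comb, Fintype.sum_prod_type]
  refine Finset.sum_congr rfl fun i _ => ?_
  rw [form, Finset.mul_sum]
  refine Finset.sum_congr rfl fun α _ => ?_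
  rw [vec]
  ring

lemma vec_unit (hK : Kernel) (mu : E R) (z : E m) (hm : ‖mu‖ = 1) (hz : ‖z‖ = 1) :
    ∑ t, ‖vec (d := d) mu z t‖ ^ 2 = 1 := by
  rw [Fintype.sum_prod_type]
  have h1 : ∀ i : Fin R, ∑ α : Idx m d, ‖vec mu z (i, α)‖ ^ 2 = ‖mu i‖ ^ 2 := by
    intro i
    calc ∑ α : Idx m d, ‖vec mu z (i, α)‖ ^ 2 = ∑ α : Idx m d, ‖mu i‖ ^ 2 * ‖phi z.ofLp α‖ ^ 2 := by
          refine Finset.sum_congr rfl fun α _ => ?_
          rw [vec, norm_mul, mul_pow]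
      _ = ‖mu i‖ ^ 2 := by rw [← Finset.mul_sum, sup_unit hK z hz, mul_one]
  rw [Finset.sum_congr rfl fun i _ => h1 i]
  have := EuclideanSpace.norm_sq_eq mu
  rw [hm, one_pow] at this
  exact this.symm

lemma vec_gram (hK : Kernel) (mu : E R) (z w : E m) (hm : ‖mu‖ = 1) :
    ∑ t, vec (d := d) mu z t * conj (vec mu w t) = (∑ i, z i * conj (w i)) ^ d := by
  rw [Fintype.sum_prod_type]
  have h1 : ∀ i : Fin R, ∑ α : Idx m d, vec mu z (i, α) * conj (vec mu w (i, α)) =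
      mu i * conj (mu i) * (∑ i, z i * conj (w i)) ^ d := by
    intro i
    rw [← hK m d z.ofLp w.ofLp, Finset.mul_sum]
    refine Finset.sum_congr rfl fun α _ => ?_
    rw [vec, vec, map_mul]
    ring
  rw [Finset.sum_congr rfl fun i _ => h1 i, ← Finset.sum_mul]
  have h2 := norm_sq_one mu hm
  rw [h2, one_mul]

end Pool.Agent.H13.RL
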