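import Pool.Agent.H13.RL.Main

/-!
# Theorem L: the union bound
-/

set_option autoImplicit false

namespace Pool.Agent.H13.RL

open MeasureTheory Metric Set
open scoped BigOperators ComplexConjugate
open Pool.Agent.H48.RK

variable {m d R : ℕ}

/-- a bad system contains a unit member which vanishes on a normalised disc -/
lemma exists_disc (hGeo : GeoD) (hFS : FormSmul) {b : Fin R → Idx m d → ℂ}
    (h : BadL b) :
    ∃ (lam : E R) (f : ℂ → E m), ‖lam‖ = 1 ∧ Disc f ∧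
      ∀ t ∈ ball (0 : ℂ) 1, form (comb lam b) (f t).ofLp = 0 := by
  obtain ⟨lam, h0, hb⟩ := h
  have hn : 0 < ‖lam‖ := norm_pos_iff.2 h0
  have hb' : BadD (comb (((‖lam‖⁻¹ : ℝ) : ℂ) • lam) b) := by
    rw [comb_smul]
    exact badD_smul _ hb
  obtain ⟨f, h1, h2, h3, h4⟩ := hb'
  obtain ⟨g, hg1, hg2⟩ := hGeo m f h1 h2 h4
  refine ⟨((‖lam‖⁻¹ : ℝ) : ℂ) • lam, g, ?_, hg1, fun t ht => ?_⟩
  · rw [norm_smul, Complex.norm_real, norm_inv, norm_norm, inv_mul_cancel₀ hn.ne']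
  · obtain ⟨z, hz, c, hc⟩ := hg2 t ht
    rw [hc, hFS, h3 z hz, mul_zero]

/-- small ball estimate for one pair of cells -/
lemma small_ball (hSB : SmallBall) (hK : Kernel) (hGrid : Grid) (hGI : GridIn) (hd : 1 ≤ d)
    {m1 : ℕ} (hm1 : 459 * ((m1 : ℝ) - 1) ≤ Real.sqrt d) (mu : E R) (hmu : ‖mu‖ = 1)
    (h : ℂ → E m) (H : Disc h) (x : Fin m1 × Fin m1 → ℂ) (η : ℝ) (h0 : 0 < η) (h1 : η ≤ 1) :
    gam (Fin R × Idx m d) {a | ∀ j, ‖form (comb mu fun i α => a (i, α)) (uv h (pt d j)).ofLp +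
      x j‖ ≤ η} ≤ ENNReal.ofReal ((212 * η ^ 2) ^ (m1 ^ 2)) := by
  classical
  have hpt : ∀ j : Fin m1 × Fin m1, pt d j ∈ ball (0 : ℂ) 1 := fun j => by
    rw [mem_ball_zero_iff]
    exact lt_of_le_of_lt (hGI d m1 hd hm1 j) (by norm_num)
  have hu : ∀ j : Fin m1 × Fin m1, ‖uv h (pt d j)‖ = 1 := fun j => by
    have := disc_norm_ge H (hpt j)
    rw [uv, norm_smul, Complex.norm_real, norm_inv, norm_norm, inv_mul_cancel₀]
    linarith
  have key := hSB (Fin R × Idx m d) (Fin m1 × Fin m1) (fun j => vec mu (uv h (pt d j)))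
    (fun j => vec_unit hK mu _ hmu (hu j)) (fun i => by
      have h2 := hGrid m d m1 hd hm1 h H i
      refine le_trans (le_of_eq ?_) h2
      refine Finset.sum_congr rfl fun j _ => ?_
      rw [vec_gram hK mu _ _ hmu]) x η h0 h1
  simp only [sum_vec] at key
  have hc : Fintype.card (Fin m1 × Fin m1) = m1 ^ 2 := by
    rw [Fintype.card_prod, Fintype.card_fin, pow_two]
  rw [hc] at key
  exact key

/-- the union bound for `s ≤ 1` -/
theorem union_bound (hGT : GamTail) (hL : Lip) (hN : Net) (hK : Kernel) (hFS : FormSmul)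
    (hFD : FormDiff) (hSB : SmallBall) (hGrid : Grid) (hGI : GridIn) (hC : Cells) (hGeo : GeoD)
    (hm : 1 ≤ m) (hd : 1 ≤ d) (hR : 1 ≤ R) (hRd : R ≤ d) {m1 K : ℕ}
    (hm1 : 459 * ((m1 : ℝ) - 1) ≤ Real.sqrt d) (hKd : 10 ^ 10 * (d : ℝ) ^ 12 ≤ 10 ^ K)
    (hlog : 8 * (m : ℝ) * Real.log (48 * d * m + 1) + 6 ≤ (d : ℝ) ^ 2)
    {g : Fin R → Idx m d → ℂ} (hg : BddL g) {s : ℝ} (hs0 : 0 < s) (hs1 : s ≤ 1)
    (hsK : (1 / 10 : ℝ) ^ K ≤ s ^ 4) :
    gam (Fin R × Idx m d) {a | BadL (sys g (s : ℂ) a)} ≤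
      ENNReal.ofReal (R * Real.exp (-(d : ℝ) ^ 2 / 4) +
        (4 * (m : ℝ) * 10 ^ K + 1) ^ (2 * m * (K + 1)) *
          (4 * (R : ℝ) * 10 ^ K + 1) ^ (2 * R) * ((1 / 10 : ℝ) ^ K) ^ (m1 ^ 2)) := by
  classical
  have hd' : (1 : ℝ) ≤ d := by exact_mod_cast hd
  set ε : ℝ := (1 / 10 : ℝ) ^ K with hε
  have hε0 : 0 < ε := by positivity
  have hTε : (10 : ℝ) ^ K * ε = 1 := by
    rw [hε, ← mul_pow]
    norm_num
  have hε1 : ε ≤ 1 := pow_le_one₀ (by norm_num) (by norm_num)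
  have hdε : 10 ^ 10 * (d : ℝ) ^ 12 * ε ≤ 1 := by
    calc 10 ^ 10 * (d : ℝ) ^ 12 * ε ≤ 10 ^ K * ε := mul_le_mul_of_nonneg_right hKd hε0.le
      _ = 1 := hTε
  have hε2 : ε ≤ 1 / (2 * d) := by
    rw [le_div_iff₀ (by positivity)]
    have h1 : (d : ℝ) ≤ (d : ℝ) ^ 12 := by
      calc (d : ℝ) = (d : ℝ) ^ 1 := (pow_one _).symm
        _ ≤ (d : ℝ) ^ 12 := pow_le_pow_right₀ hd' (by norm_num)
    have h2 : ε * (2 * d) ≤ ε * (2 * (d : ℝ) ^ 12) := by
      apply mul_le_mul_of_nonneg_left _ hε0.le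
      linarith
    have h3 : 0 ≤ (d : ℝ) ^ 12 * ε := by positivity
    nlinarith
  set η : ℝ := 21 * (d : ℝ) ^ 3 * ε / s with hη
  have hη0 : 0 < η := by positivity
  have hη2 : 212 * η ^ 2 ≤ ε := by
    -- square root of ε
    have e1 : (212 * η ^ 2) ^ 2 ≤ ε ^ 2 := by
      have e2 : (212 * η ^ 2) ^ 2 = 212 ^ 2 * 21 ^ 4 * (d : ℝ) ^ 12 * ε ^ 4 / s ^ 4 := by
        rw [hη]
        field_simp
      rw [e2, div_le_iff₀ (by positivity)]
      have e3 : ε ^ 2 * ε ≤ ε ^ 2 * s ^ 4 := mul_le_mul_of_nonneg_left hsK (by positivity)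
      refine le_trans ?_ e3
      have e4 : (212 : ℝ) ^ 2 * 21 ^ 4 ≤ 10 ^ 10 := by norm_num
      have e5 : 212 ^ 2 * 21 ^ 4 * (d : ℝ) ^ 12 * ε ≤ 1 := by
        refine le_trans ?_ hdε
        apply mul_le_mul_of_nonneg_right _ hε0.le
        exact mul_le_mul_of_nonneg_right e4 (by positivity)
      calc 212 ^ 2 * 21 ^ 4 * (d : ℝ) ^ 12 * ε ^ 4 =
            (212 ^ 2 * 21 ^ 4 * (d : ℝ) ^ 12 * ε) * (ε ^ 2 * ε) := by ring
        _ ≤ 1 * (ε ^ 2 * ε) := mul_le_mul_of_nonneg_right e5 (by positivity)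
        _ = ε ^ 2 * ε := one_mul _
    exact (sq_le_sq₀ (by positivity) hε0.le).1 e1
  have hη1 : η ≤ 1 := by
    by_contra hc
    push Not at hc
    have : 1 < η ^ 2 := by nlinarith
    linarith
  obtain ⟨C₁, _, cell₁, hc₁, hcell₁⟩ := hC m K hm
  obtain ⟨C₂, _, cell₂, hc₂, hcell₂⟩ := cellL R K hR
  -- the sets of the union
  let Q : C₁ × C₂ → E R → (ℂ → E m) → Prop := fun c mu h => ‖mu‖ = 1 ∧ Disc h ∧ cell₁ h = c.1 ∧
    cell₂ mu = c.2
  let S : C₁ × C₂ → Set (Fin R × Idx m d → ℂ) := fun c =>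
    if hq : ∃ x : E R × (ℂ → E m), Q c x.1 x.2 then
      {a | ∀ j : Fin m1 × Fin m1, ‖form (comb hq.choose.1 fun i α => a (i, α))
        (uv hq.choose.2 (pt d j)).ofLp +
          form (comb hq.choose.1 g) (uv hq.choose.2 (pt d j)).ofLp / s‖ ≤ η}
    else ∅
  have hS : ∀ c, gam (Fin R × Idx m d) (S c) ≤ ENNReal.ofReal (ε ^ (m1 ^ 2)) := by
    intro c
    by_cases hq : ∃ x : E R × (ℂ → E m), Q c x.1 x.2
    · have hsp := hq.choose_spec
      simp only [S, dif_pos hq]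
      refine (small_ball hSB hK hGrid hGI hd hm1 hq.choose.1 hsp.1 hq.choose.2 hsp.2.1 _ η hη0
        hη1).trans ?_
      apply ENNReal.ofReal_le_ofReal
      exact pow_le_pow_left₀ (by positivity) hη2 _
    · simp only [S, dif_neg hq, measure_empty]
      exact zero_le
  have hpt : ∀ j : Fin m1 × Fin m1, ‖pt d j‖ ≤ 1 / 12 := fun j => hGI d m1 hd hm1 j
  have hsub : {a | BadL (sys g (s : ℂ) a)} ⊆ Large R m d ∪ ⋃ c, S c := by
    intro a ha
    by_cases hla : a ∈ Large R m d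
    · exact Or.inl hla
    · right
      obtain ⟨lam, h, hl, H, h0⟩ := exists_disc hGeo hFS ha
      rw [mem_iUnion]
      refine ⟨(cell₁ h, cell₂ lam), ?_⟩
      have hq : ∃ x : E R × (ℂ → E m), Q (cell₁ h, cell₂ lam) x.1 x.2 :=
        ⟨(lam, h), hl, H, rfl, rfl⟩
      have hsp := hq.choose_spec
      simp only [S, dif_pos hq]
      intro j
      have hin : pt d j ∈ ball (0 : ℂ) 1 := by
        rw [mem_ball_zero_iff]
        exact lt_of_le_of_lt (hpt j) (by norm_num)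
      have h1 := hcell₁ h hq.choose.2 H hsp.2.1 hsp.2.2.1.symm (pt d j) (hpt j)
      have h2 := hcell₂ lam hq.choose.1 hl hsp.1 hsp.2.2.2.symm
      have h3 := value_le hL hFS hFD hd hRd hg hs0.le hs1 hla hl hε2 h2 H hsp.2.1 hin h1 (h0 _ hin)
      rw [comb_sys] at h3
      have hsC : (s : ℂ) ≠ 0 := by exact_mod_cast hs0.ne'
      have h4 : form (comb hq.choose.1 fun i α => a (i, α)) (uv hq.choose.2 (pt d j)).ofLp +
          form (comb hq.choose.1 g) (uv hq.choose.2 (pt d j)).ofLp / s =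
          (form (comb hq.choose.1 g) (uv hq.choose.2 (pt d j)).ofLp +
            s * form (comb hq.choose.1 fun i α => a (i, α)) (uv hq.choose.2 (pt d j)).ofLp) / s := by
        field_simp
        ring
      rw [h4, norm_div, Complex.norm_real, Real.norm_of_nonneg hs0.le, hη]
      exact div_le_div_of_nonneg_right h3 hs0.le
  have hcard : ((Fintype.card (C₁ × C₂) : ℕ) : ℝ) ≤
      (4 * (m : ℝ) * 10 ^ K + 1) ^ (2 * m * (K + 1)) * (4 * (R : ℝ) * 10 ^ K + 1) ^ (2 * R) := by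
    rw [Fintype.card_prod]
    push_cast
    have h1 : ((Fintype.card C₁ : ℕ) : ℝ) ≤ (((4 * m * 10 ^ K + 1) ^ (2 * m * (K + 1)) : ℕ) : ℝ) := by
      exact_mod_cast hc₁
    have h2 : ((Fintype.card C₂ : ℕ) : ℝ) ≤ (((4 * R * 10 ^ K + 1) ^ (2 * R) : ℕ) : ℝ) := by
      exact_mod_cast hc₂
    push_cast at h1 h2
    exact mul_le_mul h1 h2 (Nat.cast_nonneg _) (by positivity)
  calc gam (Fin R × Idx m d) {a | BadL (sys g (s : ℂ) a)}
      ≤ gam (Fin R × Idx m d) (Large R m d ∪ ⋃ c, S c) := measure_mono hsub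
    _ ≤ gam (Fin R × Idx m d) (Large R m d) + gam (Fin R × Idx m d) (⋃ c, S c) :=
        measure_union_le _ _
    _ ≤ ENNReal.ofReal (R * Real.exp (-(d : ℝ) ^ 2 / 4)) + ∑ c, gam (Fin R × Idx m d) (S c) :=
        add_le_add (supL hGT hL hN hK hFS hFD R m d hm hd hlog) (measure_iUnion_fintype_le _ _)
    _ ≤ ENNReal.ofReal (R * Real.exp (-(d : ℝ) ^ 2 / 4)) +
          ∑ _c : C₁ × C₂, ENNReal.ofReal (ε ^ (m1 ^ 2)) := by
        gcongr with c _
        exact hS c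
    _ = ENNReal.ofReal (R * Real.exp (-(d : ℝ) ^ 2 / 4)) +
          ENNReal.ofReal ((Fintype.card (C₁ × C₂) : ℕ) * ε ^ (m1 ^ 2)) := by
        rw [Finset.sum_const, Finset.card_univ, nsmul_eq_mul,
          ENNReal.ofReal_mul (p := ((Fintype.card (C₁ × C₂) : ℕ) : ℝ)) (Nat.cast_nonneg _),
          ENNReal.ofReal_natCast]
    _ = ENNReal.ofReal (R * Real.exp (-(d : ℝ) ^ 2 / 4) +
          (Fintype.card (C₁ × C₂) : ℕ) * ε ^ (m1 ^ 2)) := by
        rw [ENNReal.ofReal_add (by positivity) (by positivity)]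
    _ ≤ _ := by
        apply ENNReal.ofReal_le_ofReal
        gcongr

/-- THEOREM L from the modules -/
theorem theoremL (hGT : GamTail) (hL : Lip) (hN : Net) (hK : Kernel) (hFS : FormSmul)
    (hFD : FormDiff) (hSB : SmallBall) (hGrid : Grid) (hGI : GridIn) (hC : Cells) (hGeo : GeoD)
    (hNum : NumL) : TheoremL := by
  obtain ⟨C, c, hC0, hc0, hnum⟩ := hNum
  refine ⟨C, c, hC0, hc0, fun n d R hn hR h1 h2 g hg s hs => ?_⟩
  obtain ⟨m1, K, -, hd, hRd, hm1, hKd, hlog, hKc, hfin⟩ := hnum n d R hn hR h1 h2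
  have key : ∀ (g : Fin R → Idx (n + 2) d → ℂ), BddL g → ∀ s : ℝ,
      Real.exp (-c * d / (n + 2)) ≤ s → s ≤ 1 →
      gam (Fin R × Idx (n + 2) d) {a | BadL (sys g (s : ℂ) a)} ≤
        ENNReal.ofReal (Real.exp (-c * d ^ 2 / (n + 2))) := by
    intro g hg s hs hs1
    have hs0 : 0 < s := lt_of_lt_of_le (Real.exp_pos _) hs
    refine (union_bound hGT hL hN hK hFS hFD hSB hGrid hGI hC hGeo (by omega) hd hR hRd hm1 hKd
      hlog hg hs0 hs1 (hKc.trans (pow_le_pow_left₀ (Real.exp_pos _).le hs 4))).trans ?_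
    exact ENNReal.ofReal_le_ofReal hfin
  by_cases hs1 : s ≤ 1
  · exact key g hg s hs hs1
  · push Not at hs1
    have hs0 : 0 < s := by linarith
    have hsC : (s : ℂ) ≠ 0 := by exact_mod_cast hs0.ne'
    have hg' : BddL (fun i t => (s : ℂ)⁻¹ * g i t) := by
      intro i z hz
      have e : (fun t => (s : ℂ)⁻¹ * g i t) = (s : ℂ)⁻¹ • g i := by
        funext t
        rfl
      show ‖form (fun t => (s : ℂ)⁻¹ * g i t) z.ofLp‖ ≤ 1
      rw [e, form_smul_coef, norm_mul, norm_inv, Complex.norm_real, Real.norm_of_nonneg hs0.le]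
      calc s⁻¹ * ‖form (g i) z.ofLp‖ ≤ 1 * 1 :=
            mul_le_mul (inv_le_one_of_one_le₀ hs1.le) (hg i z hz) (norm_nonneg _) zero_le_one
        _ = 1 := one_mul 1
    have h3 := key _ hg' 1 (by
      rw [← Real.exp_zero]
      apply Real.exp_le_exp.2
      have : 0 ≤ c * d / (n + 2) := by positivity
      have e : -c * (d : ℝ) / (n + 2) = -(c * d / (n + 2)) := by ring
      rw [e]
      linarith) le_rfl
    refine le_trans (measure_mono ?_) h3
    rintro a ⟨lam, hl, hb⟩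
    refine ⟨lam, hl, ?_⟩
    have e : comb lam (sys (fun i t => (s : ℂ)⁻¹ * g i t) ((1 : ℝ) : ℂ) a) =
        (s : ℂ)⁻¹ • comb lam (sys g (s : ℂ) a) := by
      funext t
      simp only [comb, sys, Pi.smul_apply, smul_eq_mul, Finset.mul_sum]
      refine Finset.sum_congr rfl fun i _ => ?_
      push_cast
      field_simp
    rw [e]
    exact badD_smul _ hb

end Pool.Agent.H13.RL
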