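import Pool.Agent.H13.RL.Defs

/-!
# The supremum of the random members
-/

set_option autoImplicit false

namespace Pool.Agent.H13.RL

open MeasureTheory Metric Set
open scoped BigOperators ComplexConjugate
open Pool.Agent.H48.RK

theorem norm_form_le (hFS : FormSmul) {m d : ℕ} (hd : 1 ≤ d) (a : Idx m d → ℂ) (S : ℝ)
    (hS : ∀ z : E m, ‖z‖ = 1 → ‖form a z.ofLp‖ ≤ S) (z : E m) :
    ‖form a z.ofLp‖ ≤ S * ‖z‖ ^ d := by
  by_cases hz : z = 0
  · subst hz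
    have h0 := hFS m d a 0 (0 : E m).ofLp
    have h1 : (0 : ℂ) • (0 : E m).ofLp = (0 : E m).ofLp := by simp
    rw [h1, zero_pow (by omega), zero_mul] at h0
    rw [h0]
    simp [zero_pow (show d ≠ 0 by omega)]
  · have hn : ‖z‖ ≠ 0 := norm_ne_zero_iff.mpr hz
    have hu : ‖((‖z‖⁻¹ : ℝ) : ℂ) • z‖ = 1 := by
      rw [norm_smul, Complex.norm_real, norm_inv, norm_norm, inv_mul_cancel₀ hn]
    have h1 := hS _ hu
    have h2 := hFS m d a ((‖z‖ : ℝ) : ℂ) (((‖z‖⁻¹ : ℝ) : ℂ) • z).ofLp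
    have h3 : ((‖z‖ : ℝ) : ℂ) • (((‖z‖⁻¹ : ℝ) : ℂ) • z).ofLp = z.ofLp := by
      rw [WithLp.ofLp_smul, smul_smul, ← Complex.ofReal_mul, mul_inv_cancel₀ hn,
        Complex.ofReal_one, one_smul]
    rw [h3] at h2
    rw [h2, norm_mul, norm_pow, Complex.norm_real, norm_norm, mul_comm]
    exact mul_le_mul_of_nonneg_right h1 (by positivity)

private theorem sup_exists (hL : Lip) (hFS : FormSmul) (hFD : FormDiff) {m d : ℕ}
    (hd : 1 ≤ d) (N : Finset (E m))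
    (hNet : ∀ z : E m, ‖z‖ = 1 → ∃ w ∈ N, ‖z - w‖ ≤ 1 / (12 * d))
    (a : Idx m d → ℂ) (h : ∃ z : E m, ‖z‖ = 1 ∧ 2 * (d : ℝ) < ‖form a z.ofLp‖) :
    ∃ w ∈ N, (d : ℝ) < ‖form a w.ofLp‖ := by
  obtain ⟨z₀, hz₀, hz₁⟩ := h
  have hc : IsCompact (sphere (0 : E m) 1) := isCompact_sphere _ _
  have hcont : ContinuousOn (fun z : E m => ‖form a z.ofLp‖) (sphere (0 : E m) 1) :=
    ((hFD m d a).continuous.norm).continuousOn
  obtain ⟨z, hz, hmax⟩ := hc.exists_isMaxOn ⟨z₀, by simpa using hz₀⟩ hcont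
  have hzn : ‖z‖ = 1 := by simpa using hz
  have hS : ∀ y : E m, ‖y‖ = 1 → ‖form a y.ofLp‖ ≤ ‖form a z.ofLp‖ := by
    intro y hy
    exact hmax (by simpa using hy)
  have hSbig : 2 * (d : ℝ) < ‖form a z.ofLp‖ := lt_of_lt_of_le hz₁ (hS z₀ hz₀)
  obtain ⟨w, hwN, hw⟩ := hNet z hzn
  have hd' : (0 : ℝ) < d := by exact_mod_cast hd
  refine ⟨w, hwN, ?_⟩
  have hle := norm_form_le hFS hd a ‖form a z.ofLp‖ hS
  have hw2 : ‖w - z‖ ≤ 1 / (2 * d) := by
    rw [norm_sub_rev]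
    refine hw.trans ?_
    apply one_div_le_one_div_of_le (by positivity)
    nlinarith
  have hlip := hL m d hd (fun y : E m => form a y.ofLp) (hFD m d a) ‖form a z.ofLp‖ hle z w hzn hw2
  have h6 : 6 * (d : ℝ) * ‖form a z.ofLp‖ * ‖w - z‖ ≤ ‖form a z.ofLp‖ / 2 := by
    rw [norm_sub_rev]
    have : 6 * (d : ℝ) * ‖form a z.ofLp‖ * ‖z - w‖
        ≤ 6 * (d : ℝ) * ‖form a z.ofLp‖ * (1 / (12 * d)) :=
      mul_le_mul_of_nonneg_left hw (by positivity)
    refine this.trans (le_of_eq ?_)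
    field_simp
    ring
  have h7 : ‖form a z.ofLp‖ ≤ ‖form a w.ofLp‖ + ‖form a w.ofLp - form a z.ofLp‖ := by
    have := norm_sub_norm_le (form a z.ofLp) (form a w.ofLp)
    rw [norm_sub_rev] at this
    linarith
  have hlip' : ‖form a w.ofLp - form a z.ofLp‖ ≤ 6 * (d : ℝ) * ‖form a z.ofLp‖ * ‖w - z‖ := hlip
  linarith

theorem norm_sq_one {m : ℕ} (w : E m) (hw : ‖w‖ = 1) : ∑ i, w.ofLp i * conj (w.ofLp i) = 1 := by
  have h2 : (∑ i, ‖w.ofLp i‖ ^ 2 : ℝ) = 1 := by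
    have := EuclideanSpace.norm_sq_eq w
    rw [hw] at this
    simpa using this.symm
  calc ∑ i, w.ofLp i * conj (w.ofLp i) = ∑ i, ((‖w.ofLp i‖ ^ 2 : ℝ) : ℂ) := by
        refine Finset.sum_congr rfl fun i _ => ?_
        rw [Complex.mul_conj, Complex.normSq_eq_norm_sq]
    _ = 1 := by
        rw [← Complex.ofReal_sum, h2, Complex.ofReal_one]

theorem sup_unit (hK : Kernel) {m d : ℕ} (w : E m) (hw : ‖w‖ = 1) :
    ∑ α : Idx m d, ‖phi w.ofLp α‖ ^ 2 = 1 := by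
  have h := hK m d w.ofLp w.ofLp
  rw [norm_sq_one w hw, one_pow] at h
  have h3 : ((∑ α : Idx m d, ‖phi w.ofLp α‖ ^ 2 : ℝ) : ℂ) = 1 := by
    rw [Complex.ofReal_sum, ← h]
    refine Finset.sum_congr rfl fun α _ => ?_
    rw [Complex.mul_conj, Complex.normSq_eq_norm_sq]
  exact_mod_cast h3

private theorem sup_num {m d : ℕ}
    (h : 8 * (m : ℝ) * Real.log (48 * d * m + 1) + 6 ≤ (d : ℝ) ^ 2) :
    ((48 * (d : ℝ) * m + 1) ^ (2 * m)) * (4 * Real.exp (-(d : ℝ) ^ 2 / 2)) ≤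
      Real.exp (-(d : ℝ) ^ 2 / 4) := by
  have hpos : (0 : ℝ) < 48 * d * m + 1 := by positivity
  have h1 : (48 * (d : ℝ) * m + 1) ^ (2 * m)
      = Real.exp (2 * m * Real.log (48 * d * m + 1)) := by
    rw [← Real.rpow_natCast, Real.rpow_def_of_pos hpos]
    congr 1
    push_cast
    ring
  have h2 : (4 : ℝ) ≤ Real.exp (3 / 2) := by
    have h3 : (2 : ℝ) ≤ Real.exp (3 / 4) := by
      have := Real.quadratic_le_exp_of_nonneg (show (0 : ℝ) ≤ 3 / 4 by norm_num)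
      nlinarith
    have h4 : Real.exp (3 / 2) = Real.exp (3 / 4) * Real.exp (3 / 4) := by
      rw [← Real.exp_add]
      norm_num
    rw [h4]
    nlinarith
  rw [h1]
  calc Real.exp (2 * m * Real.log (48 * d * m + 1)) * (4 * Real.exp (-(d : ℝ) ^ 2 / 2))
      ≤ Real.exp (2 * m * Real.log (48 * d * m + 1)) *
          (Real.exp (3 / 2) * Real.exp (-(d : ℝ) ^ 2 / 2)) := by gcongr
    _ = Real.exp (2 * m * Real.log (48 * d * m + 1) + (3 / 2 + -(d : ℝ) ^ 2 / 2)) := by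
        rw [Real.exp_add, Real.exp_add]
    _ ≤ Real.exp (-(d : ℝ) ^ 2 / 4) := by
        apply Real.exp_le_exp.mpr
        nlinarith

/-- some generator of the random system is large -/
def Large (R m d : ℕ) : Set (Fin R × Idx m d → ℂ) :=
  {a | ∃ i : Fin R, ∃ z : E m, ‖z‖ = 1 ∧ 2 * (d : ℝ) < ‖form (fun α => a (i, α)) z.ofLp‖}

/-- SUP for linear systems -/
theorem supL (hG : GamTail) (hL : Lip) (hN : Net) (hK : Kernel) (hFS : FormSmul)
    (hFD : FormDiff) (R m d : ℕ) (hm : 1 ≤ m) (hd : 1 ≤ d)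
    (h : 8 * (m : ℝ) * Real.log (48 * d * m + 1) + 6 ≤ (d : ℝ) ^ 2) :
    gam (Fin R × Idx m d) (Large R m d) ≤ ENNReal.ofReal (R * Real.exp (-(d : ℝ) ^ 2 / 4)) := by
  classical
  obtain ⟨N, hcard, hunit, hNet⟩ := hN m d hm hd
  have hd0 : (0 : ℝ) ≤ d := by positivity
  have hsub : Large R m d ⊆
      ⋃ x ∈ (Finset.univ : Finset (Fin R)) ×ˢ N,
        {a : Fin R × Idx m d → ℂ | (d : ℝ) < ‖form (fun α => a (x.1, α)) x.2.ofLp‖} := by
    rintro a ⟨i, hi⟩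
    obtain ⟨w, hw, hw'⟩ := sup_exists hL hFS hFD hd N hNet _ hi
    refine mem_biUnion (x := (i, w)) ?_ hw'
    exact Finset.mem_coe.2 (Finset.mem_product.2 ⟨Finset.mem_univ _, hw⟩)
  have hone : ∀ x ∈ (Finset.univ : Finset (Fin R)) ×ˢ N, gam (Fin R × Idx m d)
      {a : Fin R × Idx m d → ℂ | (d : ℝ) < ‖form (fun α => a (x.1, α)) x.2.ofLp‖} ≤
      ENNReal.ofReal (4 * Real.exp (-(d : ℝ) ^ 2 / 2)) := by
    intro x hx
    have hw : ‖x.2‖ = 1 := hunit _ (Finset.mem_product.1 hx).2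
    have h1 := hG (Fin R × Idx m d) (fun t => if t.1 = x.1 then phi x.2.ofLp t.2 else 0) (by
      rw [Fintype.sum_prod_type, Finset.sum_eq_single x.1]
      · simpa using sup_unit hK x.2 hw
      · intro i _ hi
        simp [hi]
      · intro hi
        exact absurd (Finset.mem_univ _) hi) d hd0
    have h2 : ∀ a : Fin R × Idx m d → ℂ,
        ∑ t : Fin R × Idx m d, a t * (if t.1 = x.1 then phi x.2.ofLp t.2 else 0) =
          form (fun α => a (x.1, α)) x.2.ofLp := by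
      intro a
      rw [Fintype.sum_prod_type, Finset.sum_eq_single x.1]
      · simp [form]
      · intro i _ hi
        simp [hi]
      · intro hi
        exact absurd (Finset.mem_univ _) hi
    simp only [h2] at h1
    exact h1
  have hcN : (N.card : ℝ) ≤ (48 * (d : ℝ) * m + 1) ^ (2 * m) := by
    have : (N.card : ℝ) ≤ (((48 * d * m + 1) ^ (2 * m) : ℕ) : ℝ) := by exact_mod_cast hcard
    refine this.trans (le_of_eq ?_)
    push_cast
    ring
  calc gam (Fin R × Idx m d) (Large R m d)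
      ≤ gam (Fin R × Idx m d) (⋃ x ∈ (Finset.univ : Finset (Fin R)) ×ˢ N,
        {a : Fin R × Idx m d → ℂ | (d : ℝ) < ‖form (fun α => a (x.1, α)) x.2.ofLp‖}) :=
        measure_mono hsub
    _ ≤ ∑ x ∈ (Finset.univ : Finset (Fin R)) ×ˢ N, gam (Fin R × Idx m d)
        {a : Fin R × Idx m d → ℂ | (d : ℝ) < ‖form (fun α => a (x.1, α)) x.2.ofLp‖} :=
        measure_biUnion_finset_le _ _
    _ ≤ ∑ _x ∈ (Finset.univ : Finset (Fin R)) ×ˢ N,
        ENNReal.ofReal (4 * Real.exp (-(d : ℝ) ^ 2 / 2)) := Finset.sum_le_sum hone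
    _ = ((R * N.card : ℕ) : ENNReal) * ENNReal.ofReal (4 * Real.exp (-(d : ℝ) ^ 2 / 2)) := by
        rw [Finset.sum_const, nsmul_eq_mul, Finset.card_product, Finset.card_univ,
          Fintype.card_fin]
    _ = ENNReal.ofReal (((R * N.card : ℕ) : ℝ) * (4 * Real.exp (-(d : ℝ) ^ 2 / 2))) := by
        rw [ENNReal.ofReal_mul (Nat.cast_nonneg _), ENNReal.ofReal_natCast]
    _ ≤ ENNReal.ofReal (R * Real.exp (-(d : ℝ) ^ 2 / 4)) := by
        apply ENNReal.ofReal_le_ofReal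
        push_cast
        rw [mul_assoc]
        apply mul_le_mul_of_nonneg_left _ (Nat.cast_nonneg R)
        refine le_trans ?_ (sup_num h)
        exact mul_le_mul_of_nonneg_right hcN (by positivity)

end Pool.Agent.H13.RL
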